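import Pool.Agent.LYC.MainC
import Pool.Agent.LYC.SepElem

/-!
Local uniformization with monomialization, in every dimension and in characteristic `p`, for the
valuations of arbitrary rank all of whose rank one components contain a dense subfield, with
separable quotient extension, of transcendence defect at most one.

Design: helper90 (value groups that are not finitely generated; residue fields; composites; dense
extensions), helper75 (finitely generated value groups over an arbitrary field; induction on the
rank). Modules by the helpers of the projects LUX, LUV, LUW, LUY, LYC and LYD.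
-/

namespace Pool.Agent.Results.MP_53121e_ag.ComponentDefectOne

open Polynomial

universe u

variable {k K : Type u} [Field k] [Field K] [Algebra k K]

/-- The center of the valuation ring `V` on `Spec A`, for a `k`-subalgebra `A` of `K` contained in
`V`: the prime ideal of those elements of `A` that lie in the maximal ideal of `V`. -/
def center (V : ValuationSubring K) (A : Subalgebra k K) (h : ∀ a ∈ A, a ∈ V) : Ideal A :=
  (IsLocalRing.maximalIdeal V).comap
    ((A.val : A →+* K).codRestrict V.toSubring fun a => h a a.2)

instance (V : ValuationSubring K) (A : Subalgebra k K) (h : ∀ a ∈ A, a ∈ V) :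
    (center V A h).IsPrime := Ideal.IsPrime.comap _

/-- The elements `t_1, …, t_d` lie in `W` and their residues are algebraically independent over `k`:
every nonzero polynomial over `k` has a value at `t` that is a unit of `W`. -/
def ResIndep (k : Type u) [Field k] [Algebra k K] (W : ValuationSubring K) {d : ℕ}
    (t : Fin d → K) : Prop :=
  ∀ P : MvPolynomial (Fin d) k, P ≠ 0 → W.valuation (MvPolynomial.aeval t P) = 1

/-- The rational rank of the value group of `W`. -/
noncomputable def ratRank (W : ValuationSubring K) : ℕ :=
  Module.finrank ℤ (Additive (W.ValueGroup)ˣ)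

/-- The transcendence degree over `k` of the residue field of `W`. -/
noncomputable def resTrdeg (k : Type u) [Field k] [Algebra k K] (W : ValuationSubring K) : ℕ :=
  sSup {d : ℕ | ∃ t : Fin d → K, ResIndep k W t}

/-- The transcendence defect (Abhyankar defect) of `W`: the transcendence degree of `K/k` minus the
rational rank of the value group minus the transcendence degree of the residue field. -/
noncomputable def defect (k : Type u) [Field k] [Algebra k K] (W : ValuationSubring K) : ℤ :=
  (Cardinal.toNat (Algebra.trdeg k K) : ℤ) - ratRank W - resTrdeg k W

/-- The residue field of `W` is finitely generated over `k` as a field: by the residues of the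
elements of a finite set `T`. -/
def ResFG (k : Type u) [Field k] [Algebra k K] (W : ValuationSubring K) : Prop :=
  ∃ T : Finset K, (∀ x ∈ T, x ∈ W) ∧ ∀ x ∈ W, ∃ a ∈ Algebra.adjoin k (T : Set K),
    ∃ b ∈ Algebra.adjoin k (T : Set K), W.valuation b = 1 ∧ W.valuation (x * b - a) < 1

/-- The residue field of `W` is finite and separable over the image of a field `L`, `k ⊆ L ⊆ W`: it
is generated over this image by the residue of an element `a`, and this residue is a root of a
separable polynomial. -/
def ResSep (k : Type u) [Field k] [Algebra k K] (W : ValuationSubring K) : Prop :=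
  ∃ (L : IntermediateField k K) (P : L[X]) (a : K), (∀ x ∈ L, x ∈ W) ∧ P.Separable ∧ a ∈ W ∧
    W.valuation (aeval a P) < 1 ∧ ∀ x ∈ W, ∃ Q : L[X], W.valuation (x - aeval a Q) < 1

/-- `κ` is the residue field of the valuation ring `W₁` (via the `k`-linear residue map `π`), and the
valuation ring `R` of `κ` is the one defined by the valuation ring `W ⊆ W₁`. -/
def IsComponent (k : Type u) [Field k] [Algebra k K] (W W₁ : ValuationSubring K) (κ : Type u)
    [Field κ] [Algebra k κ] (R : ValuationSubring κ) : Prop :=
  ∃ π : W₁ →+* κ, Function.Surjective π ∧
    (∀ (x : W₁) (c : k), (x : K) = algebraMap k K c → π x = algebraMap k κ c) ∧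
    ∀ x : W₁, π x ∈ R ↔ (x : K) ∈ W

/-- `K` is separable over the subfield `E`: it is separable algebraic over a purely transcendental
extension `E(z_1, …, z_m)`. -/
def SepOver (E : IntermediateField k K) : Prop :=
  ∃ (m : ℕ) (z : Fin m → K), AlgebraicIndependent E z ∧
    Algebra.IsSeparable (IntermediateField.adjoin E (Set.range z)) K

/-- The subfield `E` is dense in `K` for the topology defined by `R`. -/
def DenseIn (R : ValuationSubring K) (E : IntermediateField k K) : Prop :=
  ∀ x h : K, h ≠ 0 → ∃ c ∈ E, R.valuation (x - c) < R.valuation h

/-- `K` is separable over a subfield `E`, `k ⊆ E`, which is dense for `R`; the valuation ring `R ∩ E`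
of `E` has transcendence defect at most one, and its residue field (which is the one of `R`) is finite
separable over the image of a field `L`, `k ⊆ L ⊆ R ∩ E`, or `k` is perfect and this residue field is
finitely generated over `k`, or `k` is perfect and the defect of `R ∩ E` is zero. -/
def DefectOneDense (k : Type u) [Field k] [Algebra k K] (R : ValuationSubring K) : Prop :=
  ∃ E : IntermediateField k K, SepOver E ∧ DenseIn R E ∧
    defect k (R.comap (algebraMap E K)) ≤ 1 ∧
    (ResSep k (R.comap (algebraMap E K)) ∨
      (PerfectField k ∧ (ResFG k (R.comap (algebraMap E K)) ∨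
        defect k (R.comap (algebraMap E K)) = 0)))

/-- Let `k` be a field of characteristic `p > 0`, `K/k` a finitely generated field extension and `V`
a valuation ring of `K` containing `k`, of arbitrary rank. Suppose that for all adjacent valuation
rings `W ⋖ W₁` of `K` with `V ≤ W` (`W₁ = K` allowed) the component of `V` defined by them, a rank one
valuation ring `R` of the residue field `κ` of `W₁`, satisfies `DefectOneDense`: `κ` is separable over
a dense subfield `E` for which the transcendence defect of `R ∩ E` is at most one, with the above
conditions on the residue field. (The choice `E = κ` is allowed.)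

Suppose moreover that `k` is infinite, or that the residue field of `V` is transcendental over `k`, or
that the value group of `V` is finitely generated.

Then for every finite set `F` of nonzero elements of `K` there are a finitely generated `k`-algebra
`A` in `V` with fraction field `K`, whose local ring at the center of `V` is regular, and elements
`s_1, …, s_n` of `A` which form a regular system of parameters of this local ring, such that the
elements of `F` which lie in `V` lie in `A` and every element of `F` is a monomial in the `s_i` (with
integral exponents) times a unit of the local ring. -/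
theorem result (k K : Type u) [Field k] [Field K] [Algebra k K] [Algebra.EssFiniteType k K]
    (p : ℕ) [Fact p.Prime] [CharP k p] (V : ValuationSubring K)
    (hV : ∀ c : k, algebraMap k K c ∈ V)
    (hcomp : ∀ W W₁ : ValuationSubring K, V ≤ W → W ⋖ W₁ →
      ∃ (κ : Type u) (_ : Field κ) (_ : Algebra k κ) (R : ValuationSubring κ),
        IsComponent k W W₁ κ R ∧ DefectOneDense k R)
    (hk : Infinite k ∨ 1 ≤ resTrdeg k V ∨ Group.FG (V.ValueGroup)ˣ)
    (F : Finset K) (hF : ∀ x ∈ F, x ≠ 0) :
    ∃ (A : Subalgebra k K) (h : ∀ a ∈ A, a ∈ V) (n : ℕ) (s : Fin n → A),
      A.FG ∧ IsFractionRing A K ∧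
      IsRegularLocalRing (Localization.AtPrime (center V A h)) ∧
      ringKrullDim (Localization.AtPrime (center V A h)) = n ∧
      Ideal.span (Set.range fun i => algebraMap A (Localization.AtPrime (center V A h)) (s i)) =
        IsLocalRing.maximalIdeal (Localization.AtPrime (center V A h)) ∧
      (∀ x ∈ F, x ∈ V → x ∈ A) ∧
      ∀ x ∈ F, ∃ (a : Fin n → ℤ) (N D : A), N ∉ center V A h ∧ D ∉ center V A h ∧
        x * (D : K) = (∏ i, ((s i : A) : K) ^ a i) * (N : K) := by
  refine (LYC.main_condC p V hV (fun W W₁ hVW hcov => ?_) ?_).strong F hF
  · obtain ⟨κ, _, _, R, ⟨π, hπ, hk, hm⟩, E, hsep, hd, hdef, hres⟩ := hcomp W W₁ hVW hcov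
    have hker : ∀ x : W₁, π x = 0 ↔ W₁.valuation (x : K) < 1 := by
      intro x
      have h1 : RingHom.ker π = IsLocalRing.maximalIdeal W₁ :=
        IsLocalRing.eq_maximalIdeal (RingHom.ker_isMaximal_of_surjective π hπ)
      rw [← RingHom.mem_ker, h1, W₁.valuation_lt_one_iff]
    refine ⟨κ, inferInstance, inferInstance, R, ⟨⟨⟨π, hπ, hker, fun c x h => hk x c h⟩, hcov.le, hm⟩⟩,
      E, hsep, hd, hdef, ?_⟩
    have hE : ∀ c : k, algebraMap k E c ∈ R.comap (algebraMap E κ) := by
      intro c
      rw [ValuationSubring.mem_comap]
      have h1 : algebraMap k K c ∈ W := hVW (hV c)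
      have h2 : π ⟨algebraMap k K c, hcov.le h1⟩ = algebraMap k κ c := hk _ c rfl
      have h3 : π ⟨algebraMap k K c, hcov.le h1⟩ ∈ R := (hm _).2 h1
      rw [h2] at h3
      exact h3
    rcases hres with ⟨L, P, a, hL, hP, haW, ha, hQ⟩ | h
    · exact Or.inl (LYC.sepOver_of_elem _ hE L hL P a hP haW ha hQ)
    · exact Or.inr h
  · rcases hk with h | h | h
    · exact Or.inr (Or.inl h)
    · exact Or.inr (Or.inr h)
    · exact Or.inl h

end Pool.Agent.Results.MP_53121e_ag.ComponentDefectOne
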