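import Pool.Agent.helper90.LU.FinalP

/-!
Local uniformization, in every dimension and for every Krull valuation, for the function fields
lying between `k(B₁ × ⋯ × Bₙ)` and `k(C₁ × ⋯ × Cₙ)`, where `Cᵢ → Bᵢ` are Galois covers of curves
of degree `p` over a perfect field `k` of characteristic `p`: the function fields of the quotients
of products of curves by arbitrary subgroups of `(ℤ/p)ⁿ`.

Written by helper90 (design, proof) and helper34 (local structure of curves).
-/

namespace Pool.Agent.Results.MP_53121e_ag.CurveQuotients

universe u

variable {k K : Type u} [Field k] [Field K] [Algebra k K]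

/-- The center of the valuation ring `V` on `Spec A`, for a `k`-subalgebra `A` of `K` contained in
`V`: the prime ideal of those elements of `A` that lie in the maximal ideal of `V`. -/
def center (V : ValuationSubring K) (A : Subalgebra k K) (h : ∀ a ∈ A, a ∈ V) : Ideal A :=
  (IsLocalRing.maximalIdeal V).comap
    ((A.val : A →+* K).codRestrict V.toSubring fun a => h a a.2)

instance (V : ValuationSubring K) (A : Subalgebra k K) (h : ∀ a ∈ A, a ∈ V) :
    (center V A h).IsPrime := Ideal.IsPrime.comap _

/-- `K/k` admits local uniformization: for every valuation ring `V` of `K` containing `k` (the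
valuation rings of the Krull valuations of `K`, of arbitrary rank, that are trivial on `k`), there
is an affine model of `K/k` on which `V` has a center and this center is a regular point: a
finitely generated `k`-subalgebra `A` of `V` with fraction field `K`, whose local ring at the
center of `V` is a regular local ring. -/
def AdmitsLU (k K : Type u) [Field k] [Field K] [Algebra k K] : Prop :=
  ∀ V : ValuationSubring K, (∀ c : k, algebraMap k K c ∈ V) →
    ∃ (A : Subalgebra k K) (h : ∀ a ∈ A, a ∈ V), A.FG ∧ IsFractionRing A K ∧
      IsRegularLocalRing (Localization.AtPrime (center V A h))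

/-- Let `k` be a perfect field of characteristic `p > 0`. Inside a field extension `L/k` let
`F 1, …, F n` be function fields in one variable over `k`, let `y i` be elements with
`y i ^ p - y i ∈ F i` (so that `F i (y i)` is `F i` or a Galois extension of `F i` of degree `p`),
and let `K` be any field with `F 1 ⋯ F n ⊆ K ⊆ F 1 (y 1) ⋯ F n (y n)` that has transcendence
degree `n` over `k` (so that `F 1 ⋯ F n` has transcendence degree `n` too). Then `K/k` admits
local uniformization. -/
theorem result (k L : Type u) [Field k] [PerfectField k] [Field L] [Algebra k L]
    (p : ℕ) [Fact p.Prime] [CharP k p] (n : ℕ)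
    (F : Fin n → IntermediateField k L) (hF : ∀ i, (F i).FG)
    (hF1 : ∀ i, Algebra.trdeg k (F i) = 1)
    (y : Fin n → L) (hy : ∀ i, y i ^ p - y i ∈ F i)
    (K : IntermediateField k L) (hK0 : ⨆ i, F i ≤ K)
    (hK1 : K ≤ (⨆ i, F i) ⊔ IntermediateField.adjoin k (Set.range y))
    (hKn : Algebra.trdeg k K = n) : AdmitsLU k K := fun V hV =>
  LU.lu_perfect p F (fun i => IntermediateField.essFiniteType_iff.2 (hF i)) hF1 y hy K
    (fun i => (le_iSup F i).trans hK0) hK1 hKn V hV

end Pool.Agent.Results.MP_53121e_ag.CurveQuotients
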