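import Pool.Agent.helper90.LP.PSet

/-!
Local uniformization, in every dimension and for every Krull valuation, for function fields over a
perfect field of characteristic `p` that are generated by `n` independent function fields of
curves, by `p`-th roots of sums (or products) of functions on these curves, and by tame Kummer
elements.

Written by helper90 (design, proof) and helper34 (local structure of curves).
-/

namespace Pool.Agent.Results.MP_53121e_ag.InfinitesimalQuotients

universe u

variable {k K : Type u} [Field k] [Field K] [Algebra k K]

/-- The center of the valuation ring `V` on `Spec A`, for a `k`-subalgebra `A` of `K` contained in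
`V`: the prime ideal of those elements of `A` that lie in the maximal ideal of `V`. -/
def center (V : ValuationSubring K) (A : Subalgebra k K) (h : ∀ a ∈ A, a ∈ V) : Ideal A :=
  (IsLocalRing.maximalIdeal V).comap
    ((A.val : A →+* K).codRestrict V.toSubring fun a => h a a.2)

instance (V : ValuationSubring K) (A : Subalgebra k K) (h : ∀ a ∈ A, a ∈ V) :
    (center V A h).IsPrime := Ideal.IsPrime.comap _

/-- `K/k` admits local uniformization: for every valuation ring `V` of `K` containing `k` (the
valuation rings of the Krull valuations of `K`, of arbitrary rank, that are trivial on `k`), there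
is an affine model of `K/k` on which `V` has a center and this center is a regular point: a
finitely generated `k`-subalgebra `A` of `V` with fraction field `K`, whose local ring at the
center of `V` is a regular local ring. -/
def AdmitsLU (k K : Type u) [Field k] [Field K] [Algebra k K] : Prop :=
  ∀ V : ValuationSubring K, (∀ c : k, algebraMap k K c ∈ V) →
    ∃ (A : Subalgebra k K) (h : ∀ a ∈ A, a ∈ V), A.FG ∧ IsFractionRing A K ∧
      IsRegularLocalRing (Localization.AtPrime (center V A h))

/-- Let `k` be a perfect field of characteristic `p > 0` and `K/k` a field extension of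
transcendence degree `n`. Suppose that `K` is generated over `k` by `n` finitely generated
subfields `F 1, …, F n` of transcendence degree one over `k` and by two finite sets `Y` and `Z`,
and let `g i` be an arbitrary element of `F i`, for every `i`, such that

* either `y ^ p = c + ∑ a i * g i`, with `c, a i ∈ k`, for every `y ∈ Y`,
  or `y ^ p = c * ∏ g i ^ e i`, with `c ∈ k` and integers `e i`, for every `y ∈ Y`;
* every `x ∈ Z` is a Kummer element: `x ^ m ∈ F 1 ⋯ F n` is a product of elements of
  `F 1, …, F n`, for some `m` prime to `p`.

Then `K/k` admits local uniformization. -/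
theorem result (k K : Type u) [Field k] [PerfectField k] [Field K] [Algebra k K]
    (p : ℕ) [Fact p.Prime] [CharP k p] (n : ℕ)
    (F : Fin n → IntermediateField k K) (hF : ∀ i, (F i).FG)
    (hF1 : ∀ i, Algebra.trdeg k (F i) = 1) (g : ∀ i, F i) (Y Z : Finset K)
    (hY : (∀ y ∈ Y, y ^ p ∈ Submodule.span k (insert 1 (Set.range fun i => (g i : K)))) ∨
      (∀ y ∈ Y, ∃ (c : k) (e : Fin n → ℤ),
        y ^ p = algebraMap k K c * ∏ i, (g i : K) ^ e i))
    (hZ : ∀ x ∈ Z, ∃ (m : ℕ) (h : ∀ i, F i), (m : k) ≠ 0 ∧ x ^ m = ∏ i, (h i : K))
    (hK : (⨆ i, F i) ⊔ IntermediateField.adjoin k ((Y : Set K) ∪ Z) = ⊤)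
    (hn : Algebra.trdeg k K = n) : AdmitsLU k K := fun V hV =>
  LP.lp_set p F hF hF1 g Y Z hY hZ hK hn V hV

end Pool.Agent.Results.MP_53121e_ag.InfinitesimalQuotients
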