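import Pool.Agent.helper90.LS.MSet

/-!
Local uniformization, in every dimension and for every Krull valuation, for function fields over
an algebraically closed field of characteristic `p` that are generated by independent blocks, each
the function field of a curve or a rational function field in two variables, by `p`-th roots and
Artin-Schreier roots of sums of arbitrary functions on the blocks (the roots on one set of blocks,
the Artin-Schreier roots on the others), and by tame Kummer elements.

Written by helper90 (design, global part) and the authors of the local modules: helpers 4, 7, 8, 9,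
14, 20, 32, 34, 35, 39, 47, 51, 52, 58, 60, 64, 68, 70, 71, 80, 84.
-/

namespace Pool.Agent.Results.MP_53121e_ag.TwoVariableBlocks

universe u

variable {k K : Type u} [Field k] [Field K] [Algebra k K]

/-- The center of the valuation ring `V` on `Spec A`, for a `k`-subalgebra `A` of `K` contained in
`V`: the prime ideal of those elements of `A` that lie in the maximal ideal of `V`. -/
def center (V : ValuationSubring K) (A : Subalgebra k K) (h : ∀ a ∈ A, a ∈ V) : Ideal A :=
  (IsLocalRing.maximalIdeal V).comap
    ((A.val : A →+* K).codRestrict V.toSubring fun a => h a a.2)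

instance (V : ValuationSubring K) (A : Subalgebra k K) (h : ∀ a ∈ A, a ∈ V) :
    (center V A h).IsPrime := Ideal.IsPrime.comap _

/-- `K/k` admits local uniformization: for every valuation ring `V` of `K` containing `k` (the
valuation rings of the Krull valuations of `K`, of arbitrary rank, that are trivial on `k`), there
is an affine model of `K/k` on which `V` has a center and this center is a regular point: a
finitely generated `k`-subalgebra `A` of `V` with fraction field `K`, whose local ring at the
center of `V` is a regular local ring. -/
def AdmitsLU (k K : Type u) [Field k] [Field K] [Algebra k K] : Prop :=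
  ∀ V : ValuationSubring K, (∀ c : k, algebraMap k K c ∈ V) →
    ∃ (A : Subalgebra k K) (h : ∀ a ∈ A, a ∈ V), A.FG ∧ IsFractionRing A K ∧
      IsRegularLocalRing (Localization.AtPrime (center V A h))

/-- Let `k` be an algebraically closed field of characteristic `p > 0` and `K/k` a field extension.
Suppose that `K` is generated over `k` by subfields `F 1, …, F r` and by three finite sets `Y`,
`T` and `Z`, where

* every `F i` is either a finitely generated field of transcendence degree one over `k`, or a
  purely transcendental extension `k(x, y)` of transcendence degree two, and the transcendence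
  degree of `K/k` is the sum of the transcendence degrees of the `F i`;
* `g i` is an arbitrary element of `F i`, for every `i`, and `I` is an arbitrary set of indices;
* every `y ∈ Y` satisfies `y ^ p = c + ∑_{i ∈ I} a i * g i` for some `c, a i ∈ k`;
* every `t ∈ T` satisfies `t ^ p - t = c + ∑_{i ∉ I} n i * g i` for some `c ∈ k` and integers
  `n i`;
* every `x ∈ Z` is a Kummer element: `x ^ m` is a product of elements of `F 1, …, F r`, for some
  `m` prime to `p`.

Then `K/k` admits local uniformization. -/
theorem result (k K : Type u) [Field k] [IsAlgClosed k] [Field K] [Algebra k K]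
    (p : ℕ) [Fact p.Prime] [CharP k p] (r : ℕ) (F : Fin r → IntermediateField k K)
    (hF : ∀ i, ((F i).FG ∧ Algebra.trdeg k (F i) = 1) ∨
      ((∃ x y : K, F i = IntermediateField.adjoin k {x, y}) ∧ Algebra.trdeg k (F i) = 2))
    (g : ∀ i, F i) (I : Set (Fin r)) (Y T Z : Finset K)
    (hY : ∀ y ∈ Y, y ^ p ∈ Submodule.span k (insert 1 ((fun i => (g i : K)) '' I)))
    (hT : ∀ t ∈ T, t ^ p - t ∈ AddSubgroup.closure
      (Set.range (algebraMap k K) ∪ (fun i => (g i : K)) '' Iᶜ))
    (hZ : ∀ x ∈ Z, ∃ (m : ℕ) (h : ∀ i, F i), (m : k) ≠ 0 ∧ x ^ m = ∏ i, (h i : K))
    (hK : (⨆ i, F i) ⊔ IntermediateField.adjoin k ((Y : Set K) ∪ T ∪ Z) = ⊤)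
    (hn : Algebra.trdeg k K = ∑ i, Algebra.trdeg k (F i)) : AdmitsLU k K := fun V hV =>
  LS.mix_set p F hF g I Y T Z hY hT hZ hK hn V hV

end Pool.Agent.Results.MP_53121e_ag.TwoVariableBlocks
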